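import Mathlib
import Pool.Agent.GT63.KDimDefs
import Pool.Agent.GT63.FourCycleTop
import Pool.Agent.GT63.SpaceUpper
import Pool.Agent.GT63.SpaceLower

set_option autoImplicit false

open Pool.Agent.GT63.KDim Pool.Agent.GT63.Space

namespace Pool.Agent.Results.MP_1b669b_gt.GapExample

/-- There is a finite simplicial complex `K` in a Euclidean space with connected and
non-contractible polyhedron, such that for every natural number `n` there is a compact Hausdorff
space `X` with metrizable components, with `dim_K X ≤ n` and `Ind_K X ≥ 2 n`.  For `n = 2` this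
gives `Ind_K X ≥ 4 > 3 ≥ dim_K X + 1`. -/
theorem result : ∃ K : Geometry.SimplicialComplex ℝ (EuclideanSpace ℝ (Fin 4)),
    K.faces.Finite ∧ IsConnected K.space ∧ ¬ ContractibleSpace K.space ∧
    ∀ n : ℕ, ∃ (X : Type) (_ : TopologicalSpace X), CompactSpace X ∧ T2Space X ∧
      (∀ x : X, TopologicalSpace.MetrizableSpace (connectedComponent x)) ∧
      KDimLE K X n ∧ ∀ α : Ordinal.{0}, KIndLE K α X → ((2 * n : ℕ) : Ordinal.{0}) ≤ α :=
  ⟨cyc, cyc_finite, isConnected_space, not_contractible, fun n =>
    ⟨Sp (Fin n × Bool), inferInstance, inferInstance, inferInstance, component_metrizable,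
      kdim_le n, ind_lower n⟩⟩

end Pool.Agent.Results.MP_1b669b_gt.GapExample
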